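import Pool.Agent.H21.ST.Nth

/-!
MP_8923e7_nt, theorem (STR) of helper48, `k = 1`: the clause on strings of consecutive primes, from the theorem on two
coprime moduli (hypothesis `main` here).
-/

namespace Pool.Agent.H21.ST

open Finset Pool.Agent.H30.CP Pool.Agent.H21.CG

/-- of two coprime moduli `Q i`, coprime to `L`, one has all strings -/
def TwoMain : Prop := ∀ (L s₀ : ℕ), 0 < L → Nat.Coprime s₀ L → ∀ (Q : Fin 2 → ℕ), (∀ i, 0 < Q i) →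
  (∀ i, Nat.Coprime (Q i) L) → Nat.Coprime (Q 0) (Q 1) → ∃ i, ∀ A B : ℤ, IsCoprime A (Q i : ℤ) → IsCoprime B (Q i : ℤ) →
    ∀ K : ℕ, ∃ C : ℕ, ∀ x0 x1 : ℤ, x0 + 2 * C < x1 → {N : ℕ | Cl2 K C (Q i) L A B s₀ x0 x1 N}.Infinite

/-- the strings of length `K` modulo `q` with the gap `u` between them occur up to `C` -/
def Str (q K : ℕ) (A B : ℤ) (C u : ℕ) : Set ℕ :=
  {n : ℕ | |(gap n : ℤ) - u| ≤ C ∧ K ≤ n + 1 ∧ ∀ i < K,
    (Nat.nth Nat.Prime (n - i) : ℤ) ≡ A [ZMOD q] ∧ (Nat.nth Nat.Prime (n + 1 + i) : ℤ) ≡ B [ZMOD q] ∧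
    Nat.nth Nat.Prime n ≤ Nat.nth Nat.Prime (n - i) + C ∧ Nat.nth Nat.Prime (n + 1 + i) ≤ Nat.nth Nat.Prime (n + 1) + C}

theorem str_one (main : TwoMain) (p q : ℕ) (hp : p.Prime) (hq : q.Prime) (hpq : p ≠ q) (e f K K' : ℕ) (A B A' B' : ℤ)
    (hA : ¬ (p : ℤ) ∣ A) (hB : ¬ (p : ℤ) ∣ B) (hA' : ¬ (q : ℤ) ∣ A') (hB' : ¬ (q : ℤ) ∣ B') :
    (∃ C : ℕ, ∀ u : ℕ, (Str (p ^ e) K A B C u).Infinite) ∨ ∃ C : ℕ, ∀ u : ℕ, (Str (q ^ f) K' A' B' C u).Infinite := by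
  have hcop : ∀ (p : ℕ), p.Prime → ∀ (e : ℕ) (A : ℤ), ¬ (p : ℤ) ∣ A → IsCoprime A ((p ^ e : ℕ) : ℤ) := by
    intro p hp e A hA
    rw [Nat.cast_pow]
    refine IsCoprime.pow_right ?_
    exact ((Nat.prime_iff_prime_int.1 hp).coprime_iff_not_dvd.2 hA).symm
  have hpass : ∀ (q K : ℕ) (A B : ℤ), (∀ K : ℕ, ∃ C : ℕ, ∀ x0 x1 : ℤ, x0 + 2 * C < x1 →
      {N : ℕ | Cl2 K C q 1 A B ((1 : ℕ) : ℤ) x0 x1 N}.Infinite) → ∃ C : ℕ, ∀ u : ℕ, (Str q K A B C u).Infinite := by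
    intro q K A B h
    obtain ⟨C, hC⟩ := h (max K 1)
    refine ⟨4 * C + 1, fun u => ?_⟩
    refine (strings_inf (max K 1) C q 1 A B ((1 : ℕ) : ℤ) (le_max_right _ _) hC u).mono ?_
    rintro n ⟨h1, h2, h3⟩
    refine ⟨by push_cast; exact h3, by omega, fun i hi => ?_⟩
    have h4 := h2 i (by omega)
    exact ⟨h4.1, h4.2.2.1, by omega, by omega⟩
  obtain ⟨i, hi⟩ := main 1 1 one_pos (Nat.coprime_one_right 1) ![p ^ e, q ^ f] (by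
    intro i
    fin_cases i
    · exact pow_pos hp.pos e
    · exact pow_pos hq.pos f) (fun i => Nat.coprime_one_right _) (by
    simp only [Matrix.cons_val_zero, Matrix.cons_val_one]
    exact Nat.Coprime.pow _ _ ((Nat.coprime_primes hp hq).2 hpq))
  fin_cases i
  · left
    exact hpass _ K A B (fun K => hi A B (hcop p hp e A hA) (hcop p hp e B hB) K)
  · right
    exact hpass _ K' A' B' (fun K => hi A' B' (hcop q hq f A' hA') (hcop q hq f B' hB') K)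

/-- **Strings.**  For all primes `p` but at most one all strings modulo `p ^ e` occur with all gaps between them, up to a constant. -/
theorem strings_primes (main : TwoMain) : ∃ E : Finset ℕ, E.card ≤ 1 ∧ ∀ p : ℕ, p.Prime → p ∉ E →
    ∀ (e K : ℕ) (A B : ℤ), ¬ (p : ℤ) ∣ A → ¬ (p : ℤ) ∣ B → ∃ C : ℕ, ∀ u : ℕ,
      {n : ℕ | |(gap n : ℤ) - u| ≤ C ∧ K ≤ n + 1 ∧ ∀ i < K,
        (Nat.nth Nat.Prime (n - i) : ℤ) ≡ A [ZMOD (p ^ e : ℕ)] ∧ (Nat.nth Nat.Prime (n + 1 + i) : ℤ) ≡ B [ZMOD (p ^ e : ℕ)] ∧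
        Nat.nth Nat.Prime n ≤ Nat.nth Nat.Prime (n - i) + C ∧
        Nat.nth Nat.Prime (n + 1 + i) ≤ Nat.nth Nat.Prime (n + 1) + C}.Infinite := by
  classical
  by_cases hbad : ∃ p : ℕ, p.Prime ∧ ∃ (e K : ℕ) (A B : ℤ), (¬ (p : ℤ) ∣ A) ∧ (¬ (p : ℤ) ∣ B) ∧
      ¬ ∃ C : ℕ, ∀ u : ℕ, (Str (p ^ e) K A B C u).Infinite
  · obtain ⟨p, hp, e, K, A, B, hA, hB, hno⟩ := hbad
    refine ⟨{p}, by simp, fun q hq hqE f K' A' B' hA' hB' => ?_⟩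
    have hpq : p ≠ q := by
      intro h
      exact hqE (by simp [h])
    rcases str_one main p q hp hq hpq e f K K' A B A' B' hA hB hA' hB' with h | h
    · exact absurd h hno
    · exact h
  · refine ⟨∅, by simp, fun q hq _ f K' A' B' hA' hB' => ?_⟩
    by_contra hcon
    exact hbad ⟨q, hq, f, K', A', B', hA', hB', hcon⟩

end Pool.Agent.H21.ST
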