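import Pool.Agent.H48.ST.Df

/-!
MP_8923e7_nt, theorem (STR) of helper48: the clause on strings of consecutive primes (two strings, `k = 1`), from the theorem on
pairwise coprime moduli (hypothesis `main` here: `T = 2`, `13 * 2 ^ 2 = 52 > 50`).
-/

set_option autoImplicit false

namespace Pool.Agent.H21.ST

open Finset Pool.Agent.H30.CP Pool.Agent.H21.CG Pool.Agent.H48.ST

/-- of any `T` pairwise coprime moduli `Q i`, coprime to `L`, one has all strings -/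
def Family : Prop := ∀ (k T : ℕ), 1 ≤ k → 50 * k ^ T < 13 * (k + 1) ^ T → ∀ (L s₀ : ℕ), 0 < L → Nat.Coprime s₀ L →
  ∀ Q : Fin T → ℕ, (∀ i, 0 < Q i) → (∀ i, Nat.Coprime (Q i) L) → (∀ i j, i ≠ j → Nat.Coprime (Q i) (Q j)) →
    ∃ i, ∀ w : Fin (k + 1) → ℤ, (∀ j, IsCoprime (w j) (Q i : ℤ)) → ∀ K : ℕ, ∃ C : ℕ, ∀ (u : Fin k → ℕ) (B : ℕ),
      ∃ m : Fin (k + 2) → ℕ, Strings k K L s₀ (Q i) C w u m ∧ B ≤ m 0

/-- the primes `p_n` such that the last `K` primes up to `p_n` are `= A` modulo `q`, the next `K` are `= B`, each `K` are within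
`C` of each other, and the gap after `p_n` is within `C` of `u` -/
def Two (q K : ℕ) (A B : ℤ) (C u : ℕ) : Set ℕ :=
  {n : ℕ | |(gap n : ℤ) - u| ≤ C ∧ K ≤ n + 1 ∧ ∀ i < K,
    (Nat.nth Nat.Prime (n - i) : ℤ) ≡ A [ZMOD q] ∧ (Nat.nth Nat.Prime (n + 1 + i) : ℤ) ≡ B [ZMOD q] ∧
    Nat.nth Nat.Prime n ≤ Nat.nth Nat.Prime (n - i) + C ∧ Nat.nth Nat.Prime (n + 1 + i) ≤ Nat.nth Nat.Prime (n + 1) + C}

/-- two strings -/
theorem two_of_strings {K L s₀ q C B : ℕ} {w : Fin 2 → ℤ} {u : Fin 1 → ℕ} {m : Fin 3 → ℕ} (hK : 1 ≤ K)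
    (h : Strings 1 K L s₀ q C w u m) (hB : B ≤ m 0) : ∃ n ∈ Two q K (w 0) (w 1) C (u 0), B ≤ n := by
  have hinf := Nat.infinite_setOfPred_prime
  obtain ⟨h1, h2⟩ := h
  obtain ⟨a1, a2, a3⟩ := h1 0
  obtain ⟨b1, b2, b3⟩ := h1 1
  have c := h2 0
  have e0 : (Fin.castSucc (0 : Fin 2)) = (0 : Fin 3) := rfl
  have e1 : (Fin.succ (0 : Fin 2)) = (1 : Fin 3) := rfl
  have e2 : (Fin.castSucc (1 : Fin 2)) = (1 : Fin 3) := rfl
  have e3 : (Fin.succ (1 : Fin 2)) = (2 : Fin 3) := rfl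
  have e4 : (Fin.castSucc (Fin.succ (0 : Fin 1))) = (1 : Fin 3) := rfl
  rw [e0, e1] at a1 a2 a3
  rw [e2, e3] at b1 b2 b3
  rw [e4] at c
  refine ⟨m 1 - 1, ⟨c, by omega, fun i hi => ?_⟩, by omega⟩
  have f1 : m 1 - 1 + 1 + i = m 1 + i := by omega
  have f2 : m 1 - 1 + 1 = m 1 := by omega
  rw [f1, f2]
  refine ⟨(a2 (m 1 - 1 - i) (by omega) (by omega)).2, (b2 (m 1 + i) (by omega) (by omega)).2, ?_, ?_⟩
  · have h5 : Nat.nth Nat.Prime (m 0) ≤ Nat.nth Nat.Prime (m 1 - 1 - i) :=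
      (Nat.nth_strictMono hinf).monotone (by omega)
    omega
  · have h5 : Nat.nth Nat.Prime (m 1 + i) ≤ Nat.nth Nat.Prime (m 2 - 1) :=
      (Nat.nth_strictMono hinf).monotone (by omega)
    omega

theorem two_one (main : Family) (p q : ℕ) (hp : p.Prime) (hq : q.Prime) (hpq : p ≠ q) (e f K K' : ℕ) (A B A' B' : ℤ)
    (hA : ¬ (p : ℤ) ∣ A) (hB : ¬ (p : ℤ) ∣ B) (hA' : ¬ (q : ℤ) ∣ A') (hB' : ¬ (q : ℤ) ∣ B') :
    (∃ C : ℕ, ∀ u : ℕ, (Two (p ^ e) K A B C u).Infinite) ∨ ∃ C : ℕ, ∀ u : ℕ, (Two (q ^ f) K' A' B' C u).Infinite := by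
  have hcop : ∀ (p : ℕ), p.Prime → ∀ (e : ℕ) (A : ℤ), ¬ (p : ℤ) ∣ A → IsCoprime A ((p ^ e : ℕ) : ℤ) := by
    intro p hp e A hA
    rw [Nat.cast_pow]
    refine IsCoprime.pow_right ?_
    exact ((Nat.prime_iff_prime_int.1 hp).coprime_iff_not_dvd.2 hA).symm
  have hpass : ∀ (q K : ℕ) (A B : ℤ), (∀ K : ℕ, ∃ C : ℕ, ∀ (u : Fin 1 → ℕ) (B' : ℕ),
      ∃ m : Fin 3 → ℕ, Strings 1 K 1 1 q C ![A, B] u m ∧ B' ≤ m 0) → ∃ C : ℕ, ∀ u : ℕ, (Two q K A B C u).Infinite := by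
    intro q K A B h
    obtain ⟨C, hC⟩ := h (max K 1)
    refine ⟨C, fun u => ?_⟩
    refine Set.infinite_of_forall_exists_gt fun M => ?_
    obtain ⟨m, hm, hM⟩ := hC (fun _ => u) (M + 1)
    obtain ⟨n, ⟨h1, h2, h3⟩, hn⟩ := two_of_strings (le_max_right K 1) hm hM
    refine ⟨n, ⟨h1, by omega, fun i hi => h3 i (by omega)⟩, by omega⟩
  obtain ⟨i, hi⟩ := main 1 2 le_rfl (by norm_num) 1 1 one_pos (Nat.coprime_one_right 1) ![p ^ e, q ^ f] (by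
    intro i
    fin_cases i
    · exact pow_pos hp.pos e
    · exact pow_pos hq.pos f) (fun i => Nat.coprime_one_right _) (by
    intro i j hij
    have h1 : Nat.Coprime (p ^ e) (q ^ f) := Nat.Coprime.pow _ _ ((Nat.coprime_primes hp hq).2 hpq)
    fin_cases i <;> fin_cases j
    · exact absurd rfl hij
    · exact h1
    · exact h1.symm
    · exact absurd rfl hij)
  fin_cases i
  · left
    refine hpass _ K A B (fun K => hi ![A, B] (fun j => ?_) K)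
    fin_cases j
    · exact hcop p hp e A hA
    · exact hcop p hp e B hB
  · right
    refine hpass _ K' A' B' (fun K => hi ![A', B'] (fun j => ?_) K)
    fin_cases j
    · exact hcop q hq f A' hA'
    · exact hcop q hq f B' hB'

/-- **Strings.**  For all primes `p` but at most one all pairs of strings modulo `p ^ e` occur with all gaps between them, up to a
constant. -/
theorem strings_all (main : Family) : ∃ E : Finset ℕ, E.card ≤ 1 ∧ ∀ p : ℕ, p.Prime → p ∉ E →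
    ∀ (e K : ℕ) (A B : ℤ), ¬ (p : ℤ) ∣ A → ¬ (p : ℤ) ∣ B → ∃ C : ℕ, ∀ u : ℕ,
      {n : ℕ | |(gap n : ℤ) - u| ≤ C ∧ K ≤ n + 1 ∧ ∀ i < K,
        (Nat.nth Nat.Prime (n - i) : ℤ) ≡ A [ZMOD (p ^ e : ℕ)] ∧ (Nat.nth Nat.Prime (n + 1 + i) : ℤ) ≡ B [ZMOD (p ^ e : ℕ)] ∧
        Nat.nth Nat.Prime n ≤ Nat.nth Nat.Prime (n - i) + C ∧
        Nat.nth Nat.Prime (n + 1 + i) ≤ Nat.nth Nat.Prime (n + 1) + C}.Infinite := by
  classical
  by_cases hbad : ∃ p : ℕ, p.Prime ∧ ∃ (e K : ℕ) (A B : ℤ), (¬ (p : ℤ) ∣ A) ∧ (¬ (p : ℤ) ∣ B) ∧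
      ¬ ∃ C : ℕ, ∀ u : ℕ, (Two (p ^ e) K A B C u).Infinite
  · obtain ⟨p, hp, e, K, A, B, hA, hB, hno⟩ := hbad
    refine ⟨{p}, by simp, fun q hq hqE f K' A' B' hA' hB' => ?_⟩
    have hpq : p ≠ q := by
      intro h
      exact hqE (by simp [h])
    rcases two_one main p q hp hq hpq e f K K' A B A' B' hA hB hA' hB' with h | h
    · exact absurd h hno
    · exact h
  · refine ⟨∅, by simp, fun q hq _ f K' A' B' hA' hB' => ?_⟩
    by_contra hcon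
    exact hbad ⟨q, hq, f, K', A', B', hA', hB', hcon⟩

end Pool.Agent.H21.ST
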