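import Pool.Agent.H48.ST.Fin

/-!
MP_8923e7_nt, theorem (STR) of helper48 for every `k`: strings of consecutive primes modulo prime powers, with prescribed
gaps between them up to a constant; at most `2 k - 1` primes are excepted.
-/

set_option autoImplicit false

namespace Pool.Agent.H21.ST

open Finset Pool.Agent.H21.CG

/-- `2 k` levels are enough: `4 k ^ (2 k) ≤ (k + 1) ^ (2 k)` -/
theorem pow_two_mul (k : ℕ) (hk : 1 ≤ k) : 50 * k ^ (2 * k) < 13 * (k + 1) ^ (2 * k) := by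
  have hkR : (0 : ℝ) < k := by exact_mod_cast hk
  have h1 : (2 : ℝ) ≤ (1 + 1 / (k : ℝ)) ^ k := by
    have h2 := one_add_mul_le_pow (a := 1 / (k : ℝ)) (by
      have : 0 < 1 / (k : ℝ) := by positivity
      linarith) k
    have h3 : 1 + (k : ℝ) * (1 / k) = 2 := by
      rw [mul_one_div_cancel hkR.ne']
      norm_num
    rwa [h3] at h2
  have h2 : 2 * (k : ℝ) ^ k ≤ ((k : ℝ) + 1) ^ k := by
    have h3 : ((k : ℝ) + 1) ^ k = (1 + 1 / (k : ℝ)) ^ k * (k : ℝ) ^ k := by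
      rw [← mul_pow]
      congr 1
      field_simp
    rw [h3]
    exact mul_le_mul_of_nonneg_right h1 (by positivity)
  have h3 : 2 * k ^ k ≤ (k + 1) ^ k := by exact_mod_cast h2
  have h4 : 0 < k ^ k := pow_pos (by omega) k
  have h5 : k ^ (2 * k) = k ^ k * k ^ k := by rw [two_mul, pow_add]
  have h6 : (k + 1) ^ (2 * k) = (k + 1) ^ k * (k + 1) ^ k := by rw [two_mul, pow_add]
  rw [h5, h6]
  have h7 : (2 * k ^ k) * (2 * k ^ k) ≤ (k + 1) ^ k * (k + 1) ^ k := Nat.mul_le_mul h3 h3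
  have h8 : 0 < k ^ k * k ^ k := Nat.mul_pos h4 h4
  nlinarith

/-- the primes with the indices in `[m j, m (j + 1))`, `j ≤ k`, are consecutive strings: the `j`-th is nonempty, has at least
`K` members, all `≡ A j (mod q)` and `≡ s₀ (mod L)`, within `C` of each other; the gaps between the strings are the `u j` up
to `C` -/
def Strs {k : ℕ} (K L s₀ q C : ℕ) (A : Fin (k + 1) → ℤ) (u : Fin k → ℕ) (m : Fin (k + 2) → ℕ) : Prop :=
  (∀ j : Fin (k + 1), m j.castSucc < m j.succ ∧ m j.castSucc + K ≤ m j.succ ∧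
    (∀ i, m j.castSucc ≤ i → i < m j.succ →
      (Nat.nth Nat.Prime i : ℤ) ≡ A j [ZMOD q] ∧ Nat.nth Nat.Prime i ≡ s₀ [MOD L]) ∧
    Nat.nth Nat.Prime (m j.succ - 1) ≤ Nat.nth Nat.Prime (m j.castSucc) + C) ∧
  ∀ j : Fin k, |(gap (m j.succ.castSucc - 1) : ℤ) - u j| ≤ C

/-- **Strings.**  For all primes `p` but at most `2 k - 1` all sequences of `k + 1` strings modulo `p ^ e` occur with all gaps
between them, up to a constant. -/
theorem strings_gen (k L s₀ : ℕ) (hk : 1 ≤ k) (hL : 0 < L) (hs : Nat.Coprime s₀ L) :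
    ∃ E : Finset ℕ, E.card ≤ 2 * k - 1 ∧ ∀ p : ℕ, p.Prime → Nat.Coprime p L → p ∉ E →
    ∀ (e K : ℕ) (A : Fin (k + 1) → ℤ), (∀ j, ¬ (p : ℤ) ∣ A j) → ∃ C : ℕ, ∀ (u : Fin k → ℕ) (B : ℕ),
      ∃ m : Fin (k + 2) → ℕ, B ≤ m 0 ∧ Strs K L s₀ (p ^ e) C A u m := by
  classical
  obtain ⟨G, hG⟩ : ∃ G : ℕ → ℕ → ℕ → (Fin (k + 1) → ℤ) → Prop, G = fun p e K A => ∃ C : ℕ, ∀ (u : Fin k → ℕ) (B : ℕ),
      ∃ m : Fin (k + 2) → ℕ, B ≤ m 0 ∧ Strs K L s₀ (p ^ e) C A u m := ⟨_, rfl⟩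
  obtain ⟨Bad, hBad⟩ : ∃ Bad : Set ℕ, Bad = {p : ℕ | p.Prime ∧ Nat.Coprime p L ∧ ∃ (e K : ℕ) (A : Fin (k + 1) → ℤ),
      (∀ j, ¬ (p : ℤ) ∣ A j) ∧ ¬ G p e K A} := ⟨_, rfl⟩
  -- no `2 k` bad primes
  have hno : ∀ S : Finset ℕ, (S : Set ℕ) ⊆ Bad → S.card ≤ 2 * k - 1 := by
    intro S hS
    by_contra hcon
    push Not at hcon
    obtain ⟨S', hS', hc⟩ := Finset.exists_subset_card_eq (s := S) (n := 2 * k) (by omega)
    obtain ⟨f, hf0⟩ : ∃ f : Fin (2 * k) → ℕ, f = S'.orderEmbOfFin hc := ⟨_, rfl⟩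
    have hfi : Function.Injective f := by rw [hf0]; exact (S'.orderEmbOfFin hc).injective
    have hfB : ∀ i, (f i).Prime ∧ Nat.Coprime (f i) L ∧ ∃ (e K : ℕ) (A : Fin (k + 1) → ℤ),
        (∀ j, ¬ (f i : ℤ) ∣ A j) ∧ ¬ G (f i) e K A := fun i => by
      have h : f i ∈ Bad := by
        rw [hf0]
        exact hS (hS' (S'.orderEmbOfFin_mem hc i))
      rw [hBad] at h
      exact h
    have h1 : ∀ i, (f i).Prime := fun i => (hfB i).1
    choose e K A hA hno using fun i => (hfB i).2.2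
    obtain ⟨i, hi⟩ := Pool.Agent.H48.ST.strings_family k (2 * k) (pow_two_mul k hk) L s₀ hL hs
      (fun i => f i ^ e i) (fun i => pow_pos (h1 i).pos _)
      (fun i => Nat.Coprime.pow_left _ (hfB i).2.1) (fun i j hij => Nat.Coprime.pow _ _
        ((Nat.coprime_primes (h1 i) (h1 j)).2 fun h => hij (hfi h)))
    refine hno i ?_
    rw [hG]
    obtain ⟨C, hC⟩ := hi (A i) (fun j => by
      rw [Nat.cast_pow]
      refine IsCoprime.pow_right ?_
      exact ((Nat.prime_iff_prime_int.1 (h1 i)).coprime_iff_not_dvd.2 (hA i j)).symm) (K i + 1)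
    refine ⟨C, fun u B => ?_⟩
    obtain ⟨m, ⟨h3, h4⟩, hm⟩ := hC u B
    refine ⟨m, hm, fun j => ?_, h4⟩
    obtain ⟨h5, h6, h7⟩ := h3 j
    exact ⟨by omega, by omega, fun l hl hl' => ⟨(h6 l hl hl').2, Int.natCast_modEq_iff.1 (h6 l hl hl').1⟩, h7⟩
  have hfin : Bad.Finite := by
    by_contra hinf
    obtain ⟨S, hS, hc⟩ := Set.Infinite.exists_subset_card_eq (s := Bad) hinf (2 * k)
    have := hno S hS
    omega
  refine ⟨hfin.toFinset, hno _ (by simp), fun p hp hpL hpE e K A hA => ?_⟩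
  by_contra hcon
  refine hpE ?_
  rw [Set.Finite.mem_toFinset, hBad]
  exact ⟨hp, hpL, e, K, A, hA, by rw [hG]; exact hcon⟩

end Pool.Agent.H21.ST
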