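import Pool.Agent.H21.CG.Df

/-!
MP_8923e7_nt, theorem (STR) of helper48, `k = 1`: from two clusters of primes near `N + x0` and `N + x1` with nothing
else between them to consecutive primes `Nat.nth Nat.Prime`.
-/

namespace Pool.Agent.H21.ST

open Finset Pool.Agent.H30.CP Pool.Agent.H21.CG

/-- a set of primes in `[a, b)` -/
theorem count_add {a b : ℕ} (hab : a ≤ b) (S : Finset ℕ) (hS : ∀ p ∈ S, a ≤ p ∧ p < b ∧ p.Prime) :
    Nat.count Nat.Prime a + S.card ≤ Nat.count Nat.Prime b := by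
  classical
  rw [Nat.count_eq_card_filter_range, Nat.count_eq_card_filter_range]
  rw [← Finset.card_union_of_disjoint]
  · refine Finset.card_le_card ?_
    intro p hp
    rcases Finset.mem_union.1 hp with h | h
    · rw [Finset.mem_filter, Finset.mem_range] at h ⊢
      exact ⟨by omega, h.2⟩
    · obtain ⟨h1, h2, h3⟩ := hS p h
      rw [Finset.mem_filter, Finset.mem_range]
      exact ⟨h2, h3⟩
  · rw [Finset.disjoint_left]
    intro p h1 h2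
    rw [Finset.mem_filter, Finset.mem_range] at h1
    have := (hS p h2).1
    omega

/-- the same for a set of shifts -/
theorem count_shift {N a b K : ℕ} {y C : ℤ} (hab : a ≤ b) (ha : (a : ℤ) ≤ N + y - C) (hb : (N : ℤ) + y + C < b)
    (h : ∃ S : Finset ℤ, K ≤ S.card ∧ ∀ t ∈ S, |t - y| ≤ C ∧ PP N t) :
    Nat.count Nat.Prime a + K ≤ Nat.count Nat.Prime b := by
  classical
  obtain ⟨S, hS, hS2⟩ := h
  have hpos : ∀ t ∈ S, 0 ≤ (N : ℤ) + t := by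
    intro t ht
    obtain ⟨h1, _⟩ := hS2 t ht
    rw [abs_le] at h1
    omega
  have hinj : Set.InjOn (fun t : ℤ => ((N : ℤ) + t).toNat) S := by
    intro t ht t' ht' hE
    have h1 := hpos t ht
    have h2 := hpos t' ht'
    simp only at hE
    omega
  have hcard : (S.image (fun t : ℤ => ((N : ℤ) + t).toNat)).card = S.card := Finset.card_image_of_injOn hinj
  have key := count_add hab (S.image (fun t : ℤ => ((N : ℤ) + t).toNat)) (by
    intro p hp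
    obtain ⟨t, ht, rfl⟩ := Finset.mem_image.1 hp
    obtain ⟨h1, h2⟩ := hS2 t ht
    have h0 := hpos t ht
    rw [abs_le] at h1
    refine ⟨by omega, by omega, h2⟩)
  omega

/-- **Strings.**  If the primes of `[N + x0 - C, N + x1 + C]` are near `N + x0` and `= A`, or near `N + x1` and `= B`, and there are
at least `K` of each kind, the last `K` primes up to `p_n` are `= A`, the next `K` are `= B`. -/
theorem strings2 (K C Q L : ℕ) (A B s x0 x1 : ℤ) (N u : ℕ) (hK : 1 ≤ K) (hx : x0 + 2 * C < x1)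
    (hu : |x1 - x0 - u| ≤ 2 * C + 1) (hN : 0 ≤ (N : ℤ) + x0 - C)
    (hin : ∀ b : ℤ, x0 - C ≤ b → b ≤ x1 + C → PP N b → (N : ℤ) + b ≡ s [ZMOD L] ∧
      ((|b - x0| ≤ C ∧ (N : ℤ) + b ≡ A [ZMOD Q]) ∨ (|b - x1| ≤ C ∧ (N : ℤ) + b ≡ B [ZMOD Q])))
    (h0 : ∃ S : Finset ℤ, K ≤ S.card ∧ ∀ b ∈ S, |b - x0| ≤ C ∧ PP N b)
    (h1 : ∃ S : Finset ℤ, K ≤ S.card ∧ ∀ b ∈ S, |b - x1| ≤ C ∧ PP N b) :
    ∃ n : ℕ, K ≤ n + 1 ∧ (∀ i < K,
      ((Nat.nth Nat.Prime (n - i) : ℕ) : ℤ) ≡ A [ZMOD Q] ∧ ((Nat.nth Nat.Prime (n - i) : ℕ) : ℤ) ≡ s [ZMOD L] ∧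
      ((Nat.nth Nat.Prime (n + 1 + i) : ℕ) : ℤ) ≡ B [ZMOD Q] ∧ ((Nat.nth Nat.Prime (n + 1 + i) : ℕ) : ℤ) ≡ s [ZMOD L] ∧
      Nat.nth Nat.Prime n ≤ Nat.nth Nat.Prime (n - i) + 2 * C ∧
      Nat.nth Nat.Prime (n + 1 + i) ≤ Nat.nth Nat.Prime (n + 1) + 2 * C) ∧
      |(gap n : ℤ) - u| ≤ 4 * C + 1 ∧ (N : ℤ) + x0 - C ≤ Nat.nth Nat.Prime n := by
  have hinf := Nat.infinite_setOfPred_prime
  obtain ⟨ℓ, hℓ⟩ : ∃ ℓ : ℕ, (ℓ : ℤ) = N + x0 - C := ⟨((N : ℤ) + x0 - C).toNat, by omega⟩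
  obtain ⟨μ, hμ⟩ : ∃ μ : ℕ, (μ : ℤ) = N + x0 + C + 1 := ⟨((N : ℤ) + x0 + C + 1).toNat, by omega⟩
  obtain ⟨ν, hν⟩ : ∃ ν : ℕ, (ν : ℤ) = N + x1 + C + 1 := ⟨((N : ℤ) + x1 + C + 1).toNat, by omega⟩
  have c1 : Nat.count Nat.Prime ℓ + K ≤ Nat.count Nat.Prime μ :=
    count_shift (N := N) (y := x0) (C := C) (by omega) (by omega) (by omega) h0
  have c2 : Nat.count Nat.Prime μ + K ≤ Nat.count Nat.Prime ν :=
    count_shift (N := N) (y := x1) (C := C) (by omega) (by omega) (by omega) h1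
  -- the prime number `j` with `count ℓ ≤ j < count μ`
  have P1 : ∀ j : ℕ, Nat.count Nat.Prime ℓ ≤ j → j < Nat.count Nat.Prime μ →
      (ℓ ≤ Nat.nth Nat.Prime j ∧ Nat.nth Nat.Prime j < μ) ∧
      ((Nat.nth Nat.Prime j : ℕ) : ℤ) ≡ A [ZMOD Q] ∧ ((Nat.nth Nat.Prime j : ℕ) : ℤ) ≡ s [ZMOD L] := by
    intro j hj1 hj2
    have hp : (Nat.nth Nat.Prime j).Prime := Nat.nth_mem_of_infinite hinf j
    have e1 : ℓ ≤ Nat.nth Nat.Prime j := by
      by_contra hcon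
      push Not at hcon
      have h2 : Nat.count Nat.Prime (Nat.nth Nat.Prime j) < Nat.count Nat.Prime ℓ := Nat.count_strict_mono hp hcon
      rw [Nat.count_nth_of_infinite hinf] at h2
      omega
    have e2 : Nat.nth Nat.Prime j < μ := Nat.nth_lt_of_lt_count hj2
    refine ⟨⟨e1, e2⟩, ?_⟩
    have hb := hin ((Nat.nth Nat.Prime j : ℤ) - N) (by omega) (by omega) (by
      unfold PP
      have : ((N : ℤ) + ((Nat.nth Nat.Prime j : ℤ) - N)).toNat = Nat.nth Nat.Prime j := by omega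
      rw [this]
      exact hp)
    have hE : (N : ℤ) + ((Nat.nth Nat.Prime j : ℤ) - N) = (Nat.nth Nat.Prime j : ℤ) := by ring
    rw [hE] at hb
    obtain ⟨hs, hAB⟩ := hb
    refine ⟨?_, hs⟩
    rcases hAB with h | h
    · exact h.2
    · exfalso
      have := h.1
      rw [abs_le] at this
      omega
  have P2 : ∀ j : ℕ, Nat.count Nat.Prime μ ≤ j → j < Nat.count Nat.Prime ν →
      ((N : ℤ) + x1 - C ≤ Nat.nth Nat.Prime j ∧ Nat.nth Nat.Prime j < ν) ∧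
      ((Nat.nth Nat.Prime j : ℕ) : ℤ) ≡ B [ZMOD Q] ∧ ((Nat.nth Nat.Prime j : ℕ) : ℤ) ≡ s [ZMOD L] := by
    intro j hj1 hj2
    have hp : (Nat.nth Nat.Prime j).Prime := Nat.nth_mem_of_infinite hinf j
    have e1 : μ ≤ Nat.nth Nat.Prime j := by
      by_contra hcon
      push Not at hcon
      have h2 : Nat.count Nat.Prime (Nat.nth Nat.Prime j) < Nat.count Nat.Prime μ := Nat.count_strict_mono hp hcon
      rw [Nat.count_nth_of_infinite hinf] at h2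
      omega
    have e2 : Nat.nth Nat.Prime j < ν := Nat.nth_lt_of_lt_count hj2
    have hb := hin ((Nat.nth Nat.Prime j : ℤ) - N) (by omega) (by omega) (by
      unfold PP
      have : ((N : ℤ) + ((Nat.nth Nat.Prime j : ℤ) - N)).toNat = Nat.nth Nat.Prime j := by omega
      rw [this]
      exact hp)
    have hE : (N : ℤ) + ((Nat.nth Nat.Prime j : ℤ) - N) = (Nat.nth Nat.Prime j : ℤ) := by ring
    rw [hE] at hb
    obtain ⟨hs, hAB⟩ := hb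
    rcases hAB with h | h
    · exfalso
      have := h.1
      rw [abs_le] at this
      omega
    · have h3 := h.1
      rw [abs_le] at h3
      exact ⟨⟨by omega, e2⟩, h.2, hs⟩
  obtain ⟨n, hn⟩ : ∃ n : ℕ, n + 1 = Nat.count Nat.Prime μ := ⟨Nat.count Nat.Prime μ - 1, by omega⟩
  have q0 := P1 n (by omega) (by omega)
  have q1 := P2 (n + 1) (by omega) (by omega)
  refine ⟨n, by omega, ?_, ?_, ?_⟩
  · intro i hi
    have a1 := P1 (n - i) (by omega) (by omega)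
    have a2 := P2 (n + 1 + i) (by omega) (by omega)
    have b1 := q0.1
    have b2 := q1.1
    have b3 := a1.1
    have b4 := a2.1
    exact ⟨a1.2.1, a1.2.2, a2.2.1, a2.2.2, by omega, by omega⟩
  · have hlt : Nat.nth Nat.Prime n < Nat.nth Nat.Prime (n + 1) := (Nat.nth_lt_nth hinf).2 (by omega)
    have hg : ((gap n : ℕ) : ℤ) = Nat.nth Nat.Prime (n + 1) - Nat.nth Nat.Prime n := by
      unfold gap
      omega
    rw [abs_le] at hu ⊢
    have b1 := q0.1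
    have b2 := q1.1
    constructor <;> omega
  · have := q0.1.1
    omega

/-- the hypothesis on `N`: all primes of `[N + x0 - C, N + x1 + C]` are `= s mod L` and near `N + x0` and `= A mod Q`, or near
`N + x1` and `= B mod Q`, at least `K` of each kind -/
def Cl2 (K C Q L : ℕ) (A B s x0 x1 : ℤ) (N : ℕ) : Prop :=
  (∀ b : ℤ, x0 - C ≤ b → b ≤ x1 + C → PP N b → (N : ℤ) + b ≡ s [ZMOD L] ∧
      ((|b - x0| ≤ C ∧ (N : ℤ) + b ≡ A [ZMOD Q]) ∨ (|b - x1| ≤ C ∧ (N : ℤ) + b ≡ B [ZMOD Q]))) ∧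
    (∃ S : Finset ℤ, K ≤ S.card ∧ ∀ b ∈ S, |b - x0| ≤ C ∧ PP N b) ∧
    ∃ S : Finset ℤ, K ≤ S.card ∧ ∀ b ∈ S, |b - x1| ≤ C ∧ PP N b

/-- **Strings, infinitely often.** -/
theorem strings_inf (K C Q L : ℕ) (A B s : ℤ) (hK : 1 ≤ K)
    (h : ∀ x0 x1 : ℤ, x0 + 2 * C < x1 → {N : ℕ | Cl2 K C Q L A B s x0 x1 N}.Infinite) (u : ℕ) :
    {n : ℕ | K ≤ n + 1 ∧ (∀ i < K,
      ((Nat.nth Nat.Prime (n - i) : ℕ) : ℤ) ≡ A [ZMOD Q] ∧ ((Nat.nth Nat.Prime (n - i) : ℕ) : ℤ) ≡ s [ZMOD L] ∧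
      ((Nat.nth Nat.Prime (n + 1 + i) : ℕ) : ℤ) ≡ B [ZMOD Q] ∧ ((Nat.nth Nat.Prime (n + 1 + i) : ℕ) : ℤ) ≡ s [ZMOD L] ∧
      Nat.nth Nat.Prime n ≤ Nat.nth Nat.Prime (n - i) + 2 * C ∧
      Nat.nth Nat.Prime (n + 1 + i) ≤ Nat.nth Nat.Prime (n + 1) + 2 * C) ∧
      |(gap n : ℤ) - u| ≤ 4 * C + 1}.Infinite := by
  have hinf := Nat.infinite_setOfPred_prime
  refine Set.infinite_of_forall_exists_gt fun M => ?_
  obtain ⟨x1, hx1, hx1'⟩ : ∃ x1 : ℤ, 2 * (C : ℤ) < x1 ∧ |x1 - 0 - u| ≤ 2 * C + 1 := by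
    refine ⟨max (u : ℤ) (2 * C + 1), by omega, ?_⟩
    rw [abs_le]
    omega
  obtain ⟨N, hN, hNM⟩ := (h 0 x1 (by omega)).exists_gt (Nat.nth Nat.Prime M + C)
  obtain ⟨n, hn1, hn2, hn3, hn4⟩ := strings2 K C Q L A B s 0 x1 N u hK (by omega) hx1' (by omega) hN.1 hN.2.1 hN.2.2
  have hlt : Nat.nth Nat.Prime M < Nat.nth Nat.Prime n := by omega
  exact ⟨n, ⟨hn1, hn2, hn3⟩, (Nat.nth_lt_nth hinf).1 hlt⟩

end Pool.Agent.H21.ST
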